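import Pool.Agent.N214.FT.Main
import Pool.Agent.N214.HB.Gauss

/-!
# The Tate conjecture for Fermat varieties in every characteristic: odd primes congruent to 3 modulo 4

Let `k` be a finite field with `q` elements and of characteristic `p`, let `m` divide `q - 1`, let `θ`
be a multiplicative character of `k` of order `m` and `ψ` a nontrivial additive character. Let `V` be
a Fermat variety `x_0 ^ m + ... + x_(n+1) ^ m = 0` of even dimension `n = 2 c - 2` over `k` (or any
diagonal hypersurface of degree `m`; every Fermat variety of degree prime to `p` over a finite field is
of this kind after an extension of the field, and for the conjecture one may pass to an extension).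
By Weil `H^n(V)` is the sum of lines `V(s)` and of the power of the class of a hyperplane section,
where `s` runs through the tuples of `n + 2` nonzero residues modulo `m` with sum zero, and the
Frobenius acts on `V(s)` by the product of the Gauss sums of the `θ ^ a`, `a ∈ s`, divided by `q`, up
to a root of unity. So the Tate classes of `V` over the finite extensions of `k` are spanned by the
lines such that a power of this product is the same power of `q ^ c`. Such an `s` is a Tate character
(`IsTate p m s`) by Stickelberger's theorem (`Pool.Agent.N214.HB.isTate_of_gauss`).

The theorem: if every prime factor of `m` is 2 or congruent to 3 modulo 4 then, for every `p` not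
dividing `m`, for every such `s` there is a positive `N` prime to `p` such that `N s`, of degree `N m`,
belongs to the closure under union and removal of pairs `{a, -a}` of the family of the pairs and
* the Tate characters with four entries (algebraic by Tate's theorem, as the Fermat surface is
  dominated by a product of two curves);
* the standard characters (algebraic by Aoki and Shioda);
* `ModularTate`: the Tate characters which are the union of multisets `b` and of residues killed by 12,
  each `b` consisting of the nonzero exponents of `T` in a representation `ρ` of `PSL(2, ℤ)` whose
  kernel is a congruence subgroup.
The line of `N s` is the pull back of the line of `s` under the finite map `x_i ↦ x_i ^ N`, unions and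
removal of pairs preserve algebraicity (Shioda, Katsura). So the Tate conjecture holds in these
degrees for the Fermat varieties of all dimensions, for their products and for the abelian varieties
with all simple factors in the Jacobians of Fermat curves, over all finite fields. There is no
condition on the order of `p` modulo `m`, and the number of prime factors is arbitrary.

The lines of the members of `ModularTate` are algebraic for the following reason. By Brauer's theorem
`ρ` is a combination of representations induced from characters `λ` of congruence subgroups of level
dividing `m`; for these the exponents of `T` are the numbers `(x + j) / w`, where `x` is the local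
exponent of `λ` at a cusp of width `w` and `0 ≤ j < w`, and modulo standard characters they can be
replaced by the numbers `x`. Let `U` be the modular curve of `λ` without the set `D` of the cusps and
elliptic points at which `λ` is ramified, `g` the genus and `n = 2 g - 2 + |D|`. By Deligne's
computation of the determinant of the cohomology of a sheaf of rank one, the maps from the space of
the forms in `|K + D|` to the `n`-th symmetric power of `U` (divisor) and to the hyperplane of the
tuples with sum zero (residues) identify the determinant of `H^1(U, λ)` with the line of the Fermat
variety of dimension `|D| - 2` belonging to the local exponents of `λ` (those at elliptic points are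
killed by 12), up to a Tate twist (this is also the way in which Schoen found algebraic Weil classes).
These correspondences exist in characteristic zero between varieties with good reduction and
specialise. Now `H^1(U, λ)` is a part of the cohomology of a modular curve, whose Jacobian is
isogenous to a product of abelian varieties of type `GL(2)`. The eigenforms without complex
multiplication contribute parts of rank two whose determinants are spanned by divisor classes, the
others contribute lines in the cohomology of elliptic curves with complex multiplication, and the
Tate conjecture is known for products of elliptic curves over finite fields (Spiess).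

Earlier hand-ins of the starting files treat, in every characteristic, degrees whose prime factors lie
in certain sets with at most three elements, and the multiples `k m0` of numbers `m0 ≤ 135`; other
ones have conditions on the order of `p`. The combinatorial theorem is `Pool.Agent.N214.FT.main` of
the starting library; the geometric facts just described are not formalised.
-/

namespace Pool.Agent.Results.MP_950c68_ag.FermatThreeModFour

open Pool.Agent.H916T Pool.Agent.N214.FT

theorem result {k : Type} [Field k] [Fintype k] (p : ℕ) [Fact p.Prime] [CharP k p] (m : ℕ)
    [NeZero m] (hmk : m ∣ Fintype.card k - 1)
    (hm : ∀ r : ℕ, r.Prime → r ∣ m → r = 2 ∨ r % 4 = 3)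
    (θ : MulChar k ℂ) (hθ : orderOf θ = m) (ψ : AddChar k ℂ) (hψ : ψ ≠ 1)
    (s : Multiset (ZMod m)) (h0 : (0 : ZMod m) ∉ s) (hne : s ≠ 0) (hsum : s.sum = 0)
    (c : ℕ) (hc : Multiset.card s = 2 * c) (e : ℕ) (he : 0 < e)
    (h : ((s.map fun a => gaussSum (θ ^ a.val) ψ).prod) ^ e = ((Fintype.card k : ℂ) ^ c) ^ e) :
    ∃ N : ℕ, 0 < N ∧ p.Coprime N ∧
      Generated (N * m)
        (fun t => SurfaceTate p (N * m) t ∨
          (∃ r : ℕ, r.Prime ∧ r ∣ N * m ∧ Standard r (N * m) t) ∨ ModularTate p (N * m) t)
        (s.map fun a => ((N * a.val : ℕ) : ZMod (N * m))) := by
  have hT := Pool.Agent.N214.HB.isTate_of_gauss (p := p) hmk θ hθ ψ hψ s h0 hsum c hc e he h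
  have hpm : p.Coprime m := by
    obtain ⟨F, hpr, hcard⟩ := FiniteField.card k p
    rw [Nat.Prime.coprime_iff_not_dvd hpr]
    intro h1
    have h2 : p ∣ Fintype.card k - 1 := h1.trans hmk
    have h3 : p ∣ Fintype.card k := by
      rw [hcard]
      exact dvd_pow_self p F.pos.ne'
    have hQ1 : 1 < Fintype.card k := Fintype.one_lt_card
    have h10 : p ∣ 1 := (Nat.dvd_sub_iff_right hQ1.le h3).1 h2
    exact hpr.one_lt.ne' (Nat.dvd_one.1 h10)
  obtain ⟨N, hN, hpN, H⟩ :=
    main (Fact.out : p.Prime) (Nat.pos_of_ne_zero (NeZero.ne m)) hpm hm hT hne
  exact ⟨N, hN, hpN, H (N * m) rfl⟩

end Pool.Agent.Results.MP_950c68_ag.FermatThreeModFour
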