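import Pool.Agent.U226.SR.Half

/-!
# MP_950c68_ag: if the classes of cycles make up more than half of the Tate classes on the varieties
`Y ^ n × Z`, then all Tate classes on all the powers of `Y` are algebraic

For a smooth projective variety `X` over an algebraic closure of a finite field, let `a(X)` be the
sum over all codimensions of the dimensions of the spaces spanned by the `ℓ`-adic classes of cycles,
and let `P(X)` be the sum of the orders of the poles at `s = 0, …, dim X` of the zeta function of
`X` over a large finite field; this is the number of (generalised) Tate classes, and `a(X) ≤ P(X)`.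

Let `Y` be **any** variety. Then:

* either, on **all the powers** of `Y` and in **all codimensions**, the generalised Tate classes are
  algebraic (the Tate conjecture and the semisimplicity of Frobenius on the Tate classes), and
  homological and numerical equivalence agree,
* or, for **every** variety `Z`, there is `C` such that, for all `n`,
  `a(Y ^ n × Z) ≤ (1 / 2 + C (n + 1) ^ (-1/2)) P(Y ^ n × Z)`.

So the Tate conjecture for all the powers of `Y` follows if, for one variety `Z` and one `ε > 0`, the
classes of cycles span more than the proportion `1 / 2 + ε` of the Tate classes on `Y ^ n × Z` for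
infinitely many `n`. Nothing is assumed on `Y` and `Z`; the Riemann hypothesis (Deligne) is a
hypothesis. The classes of cycles are not taken modulo numerical equivalence.
-/

set_option autoImplicit false

open CategoryTheory AlgebraicGeometry

universe u v

namespace Pool.Agent.Results.MP_950c68_ag.MoreThanHalf

open Pool.Agent.H914 Pool.Agent.W534 Pool.Agent.N181.Gap Pool.Agent.U226.SR

/-- **All Tate classes are algebraic, or asymptotically at most half of them.** -/
theorem result {k : Type u} [Field k] {𝒱 : VarClass k} {ops : CycleOps 𝒱}
    (W : WeilCohomology.{u, v} ops) [IsAlgClosed W.K] (σ : W.K →+* ℂ) (p : ℕ) (hp : p.Prime)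
    (Φ : FrobSystem W p) (hRH : ∀ Z : 𝒱.Obj, RiemannHyp Φ σ Z) (Y : 𝒱.Obj) :
    (∀ n, (∀ c, SemisimpleTateIn Φ (powProd Y Y n) c) ∧ HomEqNum W (powProd Y Y n)) ∨
    ∀ Z : 𝒱.Obj, ∃ C : ℝ, 0 ≤ C ∧ ∀ n : ℕ, ∃ P : ℕ,
      PoleSum Φ σ (powProd Y Z n) P ∧
      (algRank W (powProd Y Z n) : ℝ) ≤ (1 / 2 + C / Real.sqrt (n + 1)) * P :=
  main_half W σ p hp Φ hRH Y

end Pool.Agent.Results.MP_950c68_ag.MoreThanHalf
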