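import Pool.Agent.U173.TT.Main

/-!
# Ordinary abelian varieties over finite fields: the relations between the Frobenius eigenvalues decide
# exactly which products have exotic Tate classes, and one explicit power decides for all

Let `A 1, …, A n` be absolutely simple ordinary abelian varieties over a finite field, no two of which
are isogenous over the algebraic closure, and let `g` be the sum of their dimensions. By Honda and Tate they
are given by CM fields `E i` and the Frobenius endomorphisms `π i` (`IsOrdinaryFamily`,
`Pool/Agent/N90/TD/Defs.lean`, where also the Tate classes are defined). The Frobenius eigenvalues are the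
numbers `φ (π i)` for the complex embeddings `φ` of `E i`. An angle relation (`IsAngleRelation`,
`Pool/Agent/U173/TT/Defs.lean`) is a system of integers `n i φ` with `n i (conjugate φ) = - n i φ` such that the
product of the `φ (π i) ^ n i φ` is a root of unity.

1. **Exact criterion.** All Tate classes on the product `A 1 ^ m₁ × ⋯ × A n ^ mₙ`, over all finite
   extensions of the ground field, are linear combinations of products of classes of divisors if and only
   if there is no angle relation besides zero with `|n i φ| ≤ mᵢ` for all `i` and `φ`. (Here the coefficients
   of the cohomology can be any field of characteristic zero, for example `ℚ_ℓ`. The product is given by a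
   map `t : J → ι`, the factor `A i` occurs as often as `i` is a value of `t`.)
2. **Short relations.** Let `(g - 1) ^ (g - 1) < 4 ^ (g - 2) (N + 1) ^ 2`, that is, for `g ≥ 2`,
   `N + 1 > 2 ^ (2 - g) (g - 1) ^ ((g - 1) / 2)` (so `N = 1` for `g ≤ 4`, `N = 2` for `g = 5`, `N = 3` for
   `g = 6`, `N = 6` for `g = 7`, and always `N < g ^ (g / 2)`). If there is an angle relation besides zero,
   there is one with all `|n i φ| ≤ N`.
3. **One power decides.** If all Tate classes on one product in which every factor occurs at least `N`
   times are generated by divisors, then this is true for all products of powers of the `A i`, and the Tate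
   conjecture holds for them.

Part 1 for the case where all angle relations are zero, and the other extreme, exotic classes on some
power, are well known (Zarhin; Lenstra and Zarhin). The library (`N90`: `HG`, `UB`, `TD`) has part 3 and,
for abelian varieties with complex multiplication, the relations between the conjugates of the CM types.
New here (`U173/TT`): the relations between the CM types of the canonical lifts are the angle relations, by
the theorem of Kronecker, and so parts 1 and 2.

A necessary size: for arbitrarily large `g = s ^ 2` there are ordinary `A` of dimension `g`, with no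
Tate classes besides those generated by divisors on `A ^ r` for `r` exponentially large in `s`, and with
other Tate classes on all larger powers (`Results.MP_ee618e_ag.LateExoticPowers` of the starting files).
-/

set_option autoImplicit false

namespace Pool.Agent.Results.MP_950c68_ag.OneExplicitPower

open NumberField Module Pool.Agent.N90.TD Pool.Agent.U173.TT

theorem result {p a : ℕ} [Fact p.Prime] {ι : Type} [Fintype ι] [Nonempty ι] {E : ι → Type}
    [∀ i, Field (E i)] [∀ i, NumberField (E i)] [∀ i, IsCMField (E i)] {π : ∀ i, E i}
    (hπ : IsOrdinaryFamily p a E π) :
    (∀ (K : Type) [Field K] [CharZero K] (J : Type) [Fintype J] (t : J → ι),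
      TateGenerated (frob K π t) (p ^ a) ↔
        OnlyTrivialRelations π (fun i => Nat.card {b : J // t b = i})) ∧
    ∀ g N : ℕ, ∑ i, finrank ℚ (E i) = 2 * g → (g - 1) ^ (g - 1) < 4 ^ (g - 2) * (N + 1) ^ 2 →
      (OnlyTrivialRelations π (fun _ => N) → ∀ b : ι → ℕ, OnlyTrivialRelations π b) ∧
      ∀ (K : Type) [Field K] [CharZero K] (J : Type) [Fintype J] (t : J → ι),
        (∀ i, N ≤ Nat.card {b : J // t b = i}) → TateGenerated (frob K π t) (p ^ a) →
        ∀ (K' : Type) [Field K'] [CharZero K'] (J' : Type) [Fintype J'] (t' : J' → ι),
          TateGenerated (frob K' π t') (p ^ a) := by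
  classical
  have hcrit : ∀ (K : Type) [Field K] [CharZero K] (J : Type) [Fintype J] (t : J → ι),
      TateGenerated (frob K π t) (p ^ a) ↔
        OnlyTrivialRelations π (fun i => Nat.card {b : J // t b = i}) := by
    intro K _ _ J _ t
    have h1 : (fun i => Nat.card {b : J // t b = i}) = Pool.Agent.N90.HG.mult t := by
      funext i
      unfold Pool.Agent.N90.HG.mult
      rw [Nat.card_eq_fintype_card, Fintype.card_subtype]
    rw [h1]
    exact crit hπ K t
  refine ⟨hcrit, fun g N hg hN => ?_⟩
  have hshort : OnlyTrivialRelations π (fun _ => N) → ∀ b : ι → ℕ, OnlyTrivialRelations π b :=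
    fun h b n hn _ i φ => short hπ hg hN h n hn i φ
  refine ⟨hshort, ?_⟩
  intro K _ _ J _ t ht h K' _ _ J' _ t'
  rw [hcrit] at h ⊢
  refine hshort (fun n hn hle => h n hn fun i φ => (hle i φ).trans ?_) _
  exact_mod_cast ht i

end Pool.Agent.Results.MP_950c68_ag.OneExplicitPower
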