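import Pool.Agent.U436.CW.Cov

/-!
# Tate's conjecture for all powers of the coverings of the line with generic Frobenius

`cl : G → T` is a map of Borel–Moore homology theories on affine varieties over the closure `k` of a finite field, with
coefficients in a field `K` of characteristic zero (a closure of `ℚ_ℓ`). For one fixed `i`: `G.H X = CH_i (X) ⊗ K`, and
`T.H X` is the space of the generalised Tate classes of `H_{2 i} (X, K (-i))`, the classes on which the Frobenius of
some model has a root of unity as only eigenvalue (an exact functor of `X`; `H_{2 i} (X, K (-i)) = H ^ {2 m} (X, K (m))`,
`m = dim X - i`, for smooth `X`). `O X h` and `B X h` are the same for the open part `h ≠ 0` of `X` and the next degree.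

The hypotheses are known properties of these theories:
* `IsBorelMoore`: functoriality for finite maps, long exact sequences, homotopy invariance, additivity, quotients by
  finite groups;
* `Restricts`: the restriction to the open part `h ≠ 0`, surjective for `T` (there are no Tate classes in odd
  degree, by the Weil conjectures);
* `HasEig`: the Künneth formula, for one factor `C` of `C ^ n × R`: the Frobenius of this factor is killed
  by its characteristic polynomial on the part of `H_1` without invariants, and the automorphisms act by characters;
* `IsTate`: the definition of the Tate classes, `E` being the set of the Frobenius eigenvalues of `S`;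
* `HasGraphs`: the product with the classes on `C × C` given by combinations of graphs of powers of the Frobenius (they
  give the Tate classes of degree two; all the eigenvalues being different).

The curve is `C : A (y) = F (x)`, `F (x) = f0 (x) + ∑ i, f i (1 / (x - P i))` ANY rational function over `𝔽_Q` with pole
orders prime to `p`, and `A ≠ 0` additive, for example `A (y) = y ^ p - y`: then `C` is, after a change of `x`, any
ramified `ℤ/p`-covering of the line. `C'` is the smooth projective model and `d = deg f0 - 1 + ∑ (deg f i + 1)` is the
dimension of `H¹ (C')_ψ` for the characters `ψ ≠ 1`. The eigenvalues `α (ψ, i)`, `i < d`, always have the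
relations `α (ψ, i) * α (dual (ψ, i)) = Q` and (product formula) `∏ i, α (ψ, i) = Q ^ (d / 2) * (root of unity)`, and for
almost all `F` they have no others (`OnlyObvious`, with `E = {1}`), by Katz's monodromy theorems.

Theorem: if there are only the obvious relations (also with the eigenvalues of `S`) and `d` is even, then all the classes
of `T` on all `C ^ n × 𝔸 ^ m × S` come from `G` if and only if this is so on all `𝔸 ^ m × S`. For `S` a point: the
Tate conjecture is true for all powers `C ^ n`, and so for all powers of `C'` (which is cut into powers of `C`), of its
Jacobian, of the quotients of the powers by finite groups, in all codimensions. For `p > 2` and `n ≥ d` there are exotic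
Tate classes on `C' ^ n`, not generated by divisor classes: the determinants of `H¹ (C')_ψ`.
-/

set_option autoImplicit false

namespace Pool.Agent.Results.MP_950c68_ag.PowersOfCovers

open Pool.Agent.U436.AS Pool.Agent.U436.CT Pool.Agent.U436.CS Pool.Agent.U436.CW

theorem result (k : Type) [Field k] [IsAlgClosed k] (K : Type) [Field K] [CharZero K] (C : CycleMap k K)
    (hC : C.IsBorelMoore) (hres : Restricts C) (X : Cov k) (Q d : ℕ) (hX : X.IsGood Q d) (he : Even d)
    (hd0 : 0 < d) (Ψ : Type) [Fintype Ψ] [Nonempty Ψ] (chr : Ψ → k → K) (α : Ψ × Fin d → K)
    (hα : X.HasEig C.T Q chr α) (dual : Ψ × Fin d → Ψ × Fin d) (hdual : ∀ a, dual a ≠ a)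
    (τ : Type) [Finite τ] (S : Set (τ → k)) (hS : IsZeroSet S) (E : Set K) (hE : X.IsTate C.T Q α S E)
    (hgen : OnlyObvious Q α dual E) (hgr : X.HasGraphs C Q α dual S) :
    (∀ (Λ : Type) [Finite Λ] (n : ℕ), Onto C (X.tm Λ (affS n S))) ↔ ∀ n, Onto C (affS n S) :=
  Cov.powers_iff hC hres hX he hd0 hα hdual hS hE hgen hgr

end Pool.Agent.Results.MP_950c68_ag.PowersOfCovers
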